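import Pool.Agent.H32.Dense.LocDefs

/-!
# Rescaling to dyadic intervals of times
-/

set_option autoImplicit false

namespace Pool.Agent.H32.Dense

open Finset Real
open Pool.Agent.H49.Ent

/-- The logarithmic energy depends on the conditioning variable through its level sets only. -/
lemma Gf_congr {Ω : Type*} [Fintype Ω] {β γ : Type*} {p : Ω → ℝ} (hp : ∀ ω, 0 ≤ p ω) {b : Ω → β}
    {b' : Ω → γ} (h1 : Det p b b') (h2 : Det p b' b) (M : ℕ) (τ : Ω → ℤ) :
    Gf M p b τ = Gf M p b' τ := by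
  classical
  have hlaw : ∀ ω, 0 < p ω → law p b (b ω) = law p b' (b' ω) := by
    intro ω hω
    unfold law
    refine Finset.sum_congr rfl fun ω' _ => ?_
    rcases (hp ω').eq_or_lt with h0 | h0
    · rw [← h0]
      simp
    · by_cases hb : b ω' = b ω
      · rw [if_pos hb, if_pos (h1 ω' ω h0 hω hb)]
      · rw [if_neg hb, if_neg (fun h => hb (h2 ω' ω h0 hω h))]
  have hdbl : ∀ w, dbl p b w = dbl p b' w := by
    intro w
    unfold dbl glue
    rcases (hp w.1).eq_or_lt with h0 | h0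
    · rw [← h0]
      simp
    rcases (hp w.2).eq_or_lt with h0' | h0'
    · rw [← h0']
      simp
    by_cases hb : b w.1 = b w.2
    · rw [if_pos hb, if_pos (h1 _ _ h0 h0' hb), hlaw _ h0]
    · rw [if_neg hb, if_neg (fun h => hb (h2 _ _ h0 h0' h))]
  unfold Gf Ex
  exact Finset.sum_congr rfl fun w _ => by rw [hdbl w]

theorem local_step_aux {d : ℕ} {a lam B₀ B₁ : ℝ} (h : AKG d a lam B₀ B₁) (ha : 0 ≤ a)
    {M M' : ℕ} (hM' : 0 < M') {Ω : Type} [Fintype Ω] {ζ : Type} {p : Ω → ℝ}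
    {Z : Ω → ζ} {v : Ω → Fin d → ℤ} {u : Ω → Fin d → ℝ} {τ : Ω → ℤ} (hf : IsFam M p Z v u τ) :
    CH p v (fun ω => (Z ω, τ ω / (M' : ℤ))) ≤
      a * (Sf M p Z v u τ + 2 * d) +
      lam * (Real.log M' - CH p τ (fun ω => (bv Z v ω, τ ω / (M' : ℤ)))) + B₀ +
      B₁ * Gf M' p (fun ω => (bv Z v ω, τ ω / (M' : ℤ))) (fun ω => τ ω % (M' : ℤ)) +
      d * Real.log (M / M' + 2) := by
  have hq := hf.hp
  have hM0 : (0 : ℝ) < M := by exact_mod_cast hf.hM
  have hM'0 : (0 : ℝ) < M' := by exact_mod_cast hM'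
  have hM'Z : (0 : ℤ) < (M' : ℤ) := by exact_mod_cast hM'
  set Q : Ω → ℤ := fun ω => τ ω / (M' : ℤ) with hQ
  set τ' : Ω → ℤ := fun ω => τ ω % (M' : ℤ) with hτ'
  set v' : Ω → Fin d → ℤ := fun ω k => ⌊(M' : ℝ) * v ω k / M⌋ with hv'
  set R : Ω → Fin d → ℤ := fun ω k => v ω k - ⌊(M : ℝ) * v' ω k / M'⌋ with hR
  set u' : Ω → Fin d → ℝ := fun ω => pos M (u ω) (v ω) (M' * Q ω) with hu'
  set Z' : Ω → ζ × ℤ × (Fin d → ℤ) := fun ω => (Z ω, Q ω, R ω) with hZ'
  -- floors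
  have f1 : ∀ ω k, (v' ω k : ℝ) ≤ (M' : ℝ) * v ω k / M := fun ω k => Int.floor_le _
  have f2 : ∀ ω k, (M' : ℝ) * v ω k / M < v' ω k + 1 := fun ω k => Int.lt_floor_add_one _
  have f3 : ∀ ω k, 0 ≤ R ω k := by
    intro ω k
    have e1 : (M : ℝ) * v' ω k / M' ≤ v ω k := by
      rw [div_le_iff₀ hM'0]
      have := f1 ω k
      rw [le_div_iff₀ hM0] at this
      linarith
    have e2 : ⌊(M : ℝ) * v' ω k / M'⌋ ≤ v ω k := by
      have := Int.floor_le_floor e1
      rwa [Int.floor_intCast] at this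
    simp only [hR]
    linarith
  have f4 : ∀ ω k, (R ω k : ℝ) < M / M' + 1 := by
    intro ω k
    have e1 : (v ω k : ℝ) < (M : ℝ) * v' ω k / M' + M / M' := by
      rw [← add_div, lt_div_iff₀ hM'0]
      have := f2 ω k
      rw [div_lt_iff₀ hM0] at this
      linarith
    have e2 := Int.lt_floor_add_one ((M : ℝ) * v' ω k / M')
    simp only [hR]
    push_cast
    linarith
  have hvR : ∀ ω ω', v' ω = v' ω' → R ω = R ω' → v ω = v ω' := by
    intro ω ω' e1 e2
    funext k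
    have e3 := congrFun e2 k
    have e4 := congrFun e1 k
    simp only [hR] at e3
    rw [e4] at e3
    linarith
  have hvv' : ∀ ω ω', v ω = v ω' → v' ω = v' ω' := by
    intro ω ω' e1
    funext k
    simp only [hv']
    rw [e1]
  have hvR' : ∀ ω ω', v ω = v ω' → R ω = R ω' := by
    intro ω ω' e1
    funext k
    simp only [hR]
    rw [hvv' ω ω' e1, e1]
  have hτQ : ∀ ω, τ ω = M' * Q ω + τ' ω := fun ω => (Int.mul_ediv_add_emod (τ ω) (M' : ℤ)).symm
  have hτ'0 : ∀ ω, 0 ≤ τ' ω := fun ω => Int.emod_nonneg _ hM'Z.ne'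
  have hτ'1 : ∀ ω, τ' ω < M' := fun ω => Int.emod_lt_of_pos _ hM'Z
  -- the new family
  have hfam : IsFam M' p Z' v' u' τ' :=
    { hM := hM'
      hp := hf.hp
      h1 := hf.h1
      hv := by
        intro ω hω k
        have b := hf.hv ω hω k
        have b' : |(v ω k : ℝ)| ≤ M := by exact_mod_cast b
        obtain ⟨b1, b2⟩ := abs_le.mp b'
        rw [abs_le]
        constructor
        · refine Int.le_floor.mpr ?_
          push_cast
          rw [le_div_iff₀ hM0]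
          nlinarith
        · have e1 : (M' : ℝ) * v ω k / M ≤ (M' : ℤ) := by
            rw [div_le_iff₀ hM0]
            push_cast
            nlinarith
          have e2 := Int.floor_le_floor e1
          rwa [Int.floor_intCast] at e2
      hu := by
        intro ω ω' hω hω' e
        simp only [hZ', Prod.mk.injEq] at e
        obtain ⟨e1, e2, e3, e4⟩ := e
        have e5 := hvR ω ω' e1 e4
        have e6 : u ω = u ω' := hf.hu ω ω' hω hω' (by simp only [Prod.mk.injEq]; exact ⟨e5, e2⟩)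
        simp only [hu']
        rw [e5, e6, e3]
      hτ := fun ω _ => ⟨hτ'0 ω, hτ'1 ω⟩ }
  have hak := h M' Ω _ p Z' v' u' τ' hfam
  -- the slices
  have hS : Sf M' p Z' v' u' τ' ≤ Sf M p Z v u τ + 2 * d := by
    unfold Sf
    have c1 := CH_le_add hq (fun ω => rd (pos M' (u' ω) (v' ω) (τ' ω)))
      (fun ω => rd (pos M (u ω) (v ω) (τ ω))) (fun ω => (Z' ω, τ' ω))
    have c2 : CH p (fun ω => rd (pos M (u ω) (v ω) (τ ω))) (fun ω => (Z' ω, τ' ω)) ≤
        CH p (fun ω => rd (pos M (u ω) (v ω) (τ ω))) (fun ω => (Z ω, τ ω)) := by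
      refine CH_mono_cond hq ?_
      intro ω ω' _ _ e
      simp only [hZ', Prod.mk.injEq] at e ⊢
      obtain ⟨⟨e1, e2, _⟩, e3⟩ := e
      exact ⟨e1, by rw [hτQ ω, hτQ ω', e2, e3]⟩
    have key : ∀ ω, ∀ k, pos M' (u' ω) (v' ω) (τ' ω) k ≤ pos M (u ω) (v ω) (τ ω) k ∧
        pos M (u ω) (v ω) (τ ω) k < pos M' (u' ω) (v' ω) (τ' ω) k + 1 := by
      intro ω k
      have g1 : (0 : ℝ) ≤ τ' ω := by exact_mod_cast hτ'0 ω
      have g2 : (τ' ω : ℝ) ≤ M' := by exact_mod_cast (hτ'1 ω).le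
      have g3 : (τ ω : ℝ) = M' * Q ω + τ' ω := by exact_mod_cast hτQ ω
      have g4 : pos M (u ω) (v ω) (τ ω) k - pos M' (u' ω) (v' ω) (τ' ω) k =
          (τ' ω : ℝ) / M' * ((M' : ℝ) * v ω k / M - v' ω k) := by
        simp only [hu', pos]
        rw [g3]
        push_cast
        field_simp
        ring
      have g5 : (0 : ℝ) ≤ (M' : ℝ) * v ω k / M - v' ω k := by linarith [f1 ω k]
      have g6 : (M' : ℝ) * v ω k / M - v' ω k < 1 := by linarith [f2 ω k]
      have g7 : (τ' ω : ℝ) / M' ≤ 1 := (div_le_one hM'0).mpr g2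
      have g8 : 0 ≤ (τ' ω : ℝ) / M' := by positivity
      constructor
      · have := mul_nonneg g8 g5
        linarith
      · have := mul_le_mul_of_nonneg_right g7 g5
        linarith
    have key2 : ∀ ω, ∀ k, rd (pos M' (u' ω) (v' ω) (τ' ω)) k ≤ rd (pos M (u ω) (v ω) (τ ω)) k ∧
        rd (pos M (u ω) (v ω) (τ ω)) k ≤ rd (pos M' (u' ω) (v' ω) (τ' ω)) k + 1 := by
      intro ω k
      obtain ⟨k1, k2⟩ := key ω k
      refine ⟨Int.floor_le_floor k1, ?_⟩
      have := Int.floor_le_floor k2.le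
      rwa [Int.floor_add_one] at this
    have c3 := CH_le_vec hq hf.h1 (fun ω => rd (pos M' (u' ω) (v' ω) (τ' ω)))
      (fun ω => (rd (pos M (u ω) (v ω) (τ ω)), (Z' ω, τ' ω))) (fun _ => 1) (by
        intro ω ω' _ _ e k
        have e1 := congrFun (Prod.ext_iff.mp e).1 k
        simp only at e1
        obtain ⟨k1, k2⟩ := key2 ω k
        obtain ⟨k3, k4⟩ := key2 ω' k
        have : |rd (pos M' (u' ω) (v' ω) (τ' ω)) k - rd (pos M' (u' ω') (v' ω') (τ' ω')) k| ≤ 1 := by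
          rw [abs_le]
          constructor <;> omega
        exact_mod_cast this)
    rw [Ex_const hf.h1] at c3
    have c4 : Real.log (2 * 1 + 1) ≤ 2 := by
      have := Real.log_le_sub_one_of_pos (by norm_num : (0 : ℝ) < 2 * 1 + 1)
      linarith
    have c5 : (d : ℝ) * Real.log (2 * 1 + 1) ≤ d * 2 :=
      mul_le_mul_of_nonneg_left c4 (Nat.cast_nonneg d)
    linarith
  -- the times
  have hK : Kf M' p (fun ω => (v' ω, Z' ω)) τ' =
      Real.log M' - CH p τ (fun ω => (bv Z v ω, Q ω)) := by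
    unfold Kf
    congr 1
    refine CH_congr hq ?_ ?_ ?_ ?_
    · intro ω ω' _ _ e
      simp only [hZ', Prod.mk.injEq] at e
      obtain ⟨e1, e2, e3, e4, e5⟩ := e
      rw [hτQ ω, hτQ ω', e4, e1]
    · intro ω ω' _ _ e
      simp only [Prod.mk.injEq] at e
      simp only [hτ']
      rw [e.1]
    · intro ω ω' _ _ e
      simp only [hZ', Prod.mk.injEq] at e
      obtain ⟨e1, e2, e3, e4⟩ := e
      simp only [bv, Prod.mk.injEq]
      exact ⟨⟨hvR ω ω' e1 e4, e2⟩, e3⟩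
    · intro ω ω' _ _ e
      simp only [bv, Prod.mk.injEq] at e
      obtain ⟨⟨e1, e2⟩, e3⟩ := e
      simp only [hZ', Prod.mk.injEq]
      exact ⟨hvv' ω ω' e1, e2, e3, hvR' ω ω' e1⟩
  have hG : Gf M' p (fun ω => (v' ω, Z' ω)) τ' = Gf M' p (fun ω => (bv Z v ω, Q ω)) τ' := by
    refine Gf_congr hq ?_ ?_ M' τ'
    · intro ω ω' _ _ e
      simp only [hZ', Prod.mk.injEq] at e
      obtain ⟨e1, e2, e3, e4⟩ := e
      simp only [bv, Prod.mk.injEq]
      exact ⟨⟨hvR ω ω' e1 e4, e2⟩, e3⟩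
    · intro ω ω' _ _ e
      simp only [bv, Prod.mk.injEq] at e
      obtain ⟨⟨e1, e2⟩, e3⟩ := e
      simp only [hZ', Prod.mk.injEq]
      exact ⟨hvv' ω ω' e1, e2, e3, hvR' ω ω' e1⟩
  rw [hK, hG] at hak
  -- the direction
  have d1 := CH_le_add hq v R (fun ω => (Z ω, Q ω))
  have d2 : CH p v (fun ω => (R ω, (Z ω, Q ω))) ≤ CH p v' Z' := by
    have : CH p v (fun ω => (R ω, (Z ω, Q ω))) = CH p v' Z' := by
      refine CH_congr hq ?_ ?_ ?_ ?_
      · intro ω ω' _ _ e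
        simp only [Prod.mk.injEq] at e
        exact hvv' ω ω' e.1
      · intro ω ω' _ _ e
        simp only [hZ', Prod.mk.injEq] at e
        exact hvR ω ω' e.1 e.2.2.2
      · intro ω ω' _ _ e
        simp only [hZ', Prod.mk.injEq] at e ⊢
        tauto
      · intro ω ω' _ _ e
        simp only [hZ', Prod.mk.injEq] at e ⊢
        tauto
    exact this.le
  have d3 := CH_le_card hq hf.h1 R (fun ω => (Z ω, Q ω))
    (fun _ => Fintype.piFinset fun _ : Fin d => Finset.Ico 0 ⌈(M : ℝ) / M' + 1⌉) (by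
      intro ω _
      rw [Fintype.mem_piFinset]
      intro k
      rw [Finset.mem_Ico]
      refine ⟨f3 ω k, ?_⟩
      have := (f4 ω k).trans_le (Int.le_ceil _)
      exact_mod_cast this)
  have d4 : Real.log ((Fintype.piFinset fun _ : Fin d =>
      Finset.Ico 0 ⌈(M : ℝ) / M' + 1⌉).card : ℝ) ≤ d * Real.log (M / M' + 2) := by
    rw [Fintype.card_piFinset]
    simp only [Finset.prod_const, Finset.card_univ, Fintype.card_fin, Int.card_Ico, sub_zero]
    push_cast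
    rw [Real.log_pow]
    refine mul_le_mul_of_nonneg_left ?_ (Nat.cast_nonneg d)
    have g1 : 0 ≤ (M : ℝ) / M' := by positivity
    have g2 : 0 < ⌈(M : ℝ) / M' + 1⌉ := Int.ceil_pos.mpr (by positivity)
    have g3 : ((⌈(M : ℝ) / M' + 1⌉.toNat : ℤ) : ℝ) = ⌈(M : ℝ) / M' + 1⌉ := by
      rw [Int.toNat_of_nonneg g2.le]
    have g4 : ((⌈(M : ℝ) / M' + 1⌉.toNat : ℕ) : ℝ) = ⌈(M : ℝ) / M' + 1⌉ := by
      exact_mod_cast g3
    rw [g4]
    refine Real.log_le_log (by exact_mod_cast g2) ?_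
    have := Int.ceil_lt_add_one ((M : ℝ) / M' + 1)
    linarith
  rw [Ex_const hf.h1] at d3
  have e1 := mul_le_mul_of_nonneg_left hS ha
  linarith

theorem local_step {d : ℕ} {a lam B₀ B₁ : ℝ} (h : AKG d a lam B₀ B₁) (ha : 0 ≤ a)
    {M m j : ℕ} (_hm : M ≤ 2 ^ m) {Ω : Type} [Fintype Ω] {ζ : Type} {p : Ω → ℝ}
    {Z : Ω → ζ} {v : Ω → Fin d → ℤ} {u : Ω → Fin d → ℝ} {τ : Ω → ℤ} (hf : IsFam M p Z v u τ) :
    CH p v (fun ω => (Z ω, τ ω / 2 ^ (m - j))) ≤
      a * (Sf M p Z v u τ + 2 * d) +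
      lam * (Real.log (2 ^ (m - j)) - CH p τ (fun ω => (bv Z v ω, τ ω / 2 ^ (m - j)))) + B₀ +
      B₁ * Gf (2 ^ (m - j)) p (fun ω => (bv Z v ω, τ ω / 2 ^ (m - j))) (fun ω => τ ω % 2 ^ (m - j)) +
      d * Real.log (M / 2 ^ (m - j) + 2) := by
  have := local_step_aux h ha (M' := 2 ^ (m - j)) (by positivity) hf
  push_cast at this
  exact this

end Pool.Agent.H32.Dense
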