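import Pool.Agent.H32.Dense.Iface

/-!
# From the entropy inequality with random times to the counting form

Module X6 of the project DENSE.
-/

set_option autoImplicit false

namespace Pool.Agent.H36.Dense

open Finset Real
open Pool.Agent.H49.Ent
open Pool.Agent.H32.Dense

section Space

variable {N d : ℕ} (A : Fin N → Finset ℤ)

/-- The probability space: a line and one of its times. -/
abbrev Sp : Type := (i : Fin N) × {x : ℤ // x ∈ A i}

/-- The line is uniform, then the time is uniform. -/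
noncomputable def wt (ω : Sp A) : ℝ := (N : ℝ)⁻¹ * ((A ω.1).card : ℝ)⁻¹

lemma wt_nonneg (ω : Sp A) : 0 ≤ wt A ω := by
  unfold wt
  positivity

lemma sum_fiber (hA : ∀ i, (A i).Nonempty) (i : Fin N) :
    ∑ _x : {x : ℤ // x ∈ A i}, (N : ℝ)⁻¹ * ((A i).card : ℝ)⁻¹ = (N : ℝ)⁻¹ := by
  have hc : ((A i).card : ℝ) ≠ 0 := by
    exact_mod_cast (Finset.card_pos.mpr (hA i)).ne'
  rw [Finset.sum_const, Finset.card_univ, Fintype.card_coe, nsmul_eq_mul]
  field_simp

lemma wt_pos (hN : 0 < N) (ω : Sp A) : 0 < wt A ω := by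
  have h1 : (0 : ℝ) < N := by exact_mod_cast hN
  have h2 : (0 : ℝ) < (A ω.1).card := by
    exact_mod_cast Finset.card_pos.mpr ⟨_, ω.2.2⟩
  unfold wt
  positivity

lemma sum_wt (hN : 0 < N) (hA : ∀ i, (A i).Nonempty) : ∑ ω, wt A ω = 1 := by
  have h1 : (N : ℝ) ≠ 0 := by exact_mod_cast hN.ne'
  rw [Fintype.sum_sigma]
  unfold wt
  simp only
  rw [Finset.sum_congr rfl fun i _ => sum_fiber A hA i, Finset.sum_const, Finset.card_univ,
    Fintype.card_fin, nsmul_eq_mul]
  field_simp

variable {β : Type} (b : Fin N → β)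

lemma law_line (hA : ∀ i, (A i).Nonempty) (hb : Function.Injective b) (i : Fin N) :
    law (wt A) (fun ω : Sp A => b ω.1) (b i) = (N : ℝ)⁻¹ := by
  classical
  unfold law
  rw [Fintype.sum_sigma, Finset.sum_eq_single i]
  · simp only [if_true]
    exact sum_fiber A hA i
  · intro j _ hj
    refine Finset.sum_eq_zero fun x _ => ?_
    rw [if_neg fun h => hj (hb h)]
  · intro h
    exact absurd (Finset.mem_univ i) h

lemma law_full (hb : Function.Injective b) (ω : Sp A) :
    law (wt A) (fun ω : Sp A => ((ω.2 : ℤ), b ω.1)) ((ω.2 : ℤ), b ω.1) = wt A ω := by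
  classical
  unfold law
  rw [Finset.sum_eq_single ω]
  · rw [if_pos rfl]
  · intro ω' _ hne
    rw [if_neg]
    intro h
    apply hne
    obtain ⟨i, x⟩ := ω
    obtain ⟨j, y⟩ := ω'
    simp only [Prod.mk.injEq] at h
    obtain ⟨h1, h2⟩ := h
    have h3 := hb h2
    subst h3
    congr
    exact Subtype.ext h1
  · intro h
    exact absurd (Finset.mem_univ ω) h

/-- The energy. -/
lemma Gf_bound (M : ℕ) (hN : 0 < N) (hA : ∀ i, (A i).Nonempty) (hb : Function.Injective b)
    {G₀ : ℝ} (hG : ∀ i, ∀ x ∈ A i, ∑ y ∈ A i, ell M x y ≤ G₀ * (A i).card) :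
    Gf M (wt A) (fun ω : Sp A => b ω.1) (fun ω => (ω.2 : ℤ)) ≤ G₀ := by
  classical
  have hN' : (N : ℝ) ≠ 0 := by exact_mod_cast hN.ne'
  have hinner : ∀ ω : Sp A, ∑ ω' : Sp A, dbl (wt A) (fun ω : Sp A => b ω.1) (ω, ω') *
      ell M (ω.2 : ℤ) (ω'.2 : ℤ) ≤ wt A ω * G₀ := by
    intro ω
    have hc : ((A ω.1).card : ℝ) ≠ 0 := by
      exact_mod_cast (Finset.card_pos.mpr (hA ω.1)).ne'
    rw [Fintype.sum_sigma, Finset.sum_eq_single ω.1]
    · have e1 : ∀ y : {x : ℤ // x ∈ A ω.1},
          dbl (wt A) (fun ω : Sp A => b ω.1) (ω, ⟨ω.1, y⟩) * ell M (ω.2 : ℤ) (y : ℤ) =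
            wt A ω * ((A ω.1).card : ℝ)⁻¹ * ell M (ω.2 : ℤ) (y : ℤ) := by
        intro y
        unfold dbl glue
        simp only [if_true]
        rw [law_line A b hA hb]
        unfold wt
        simp only
        field_simp
      rw [Finset.sum_congr rfl fun y _ => e1 y, ← Finset.mul_sum]
      have e2 : ∑ y : {x : ℤ // x ∈ A ω.1}, ell M (ω.2 : ℤ) (y : ℤ) =
          ∑ y ∈ A ω.1, ell M (ω.2 : ℤ) y := Finset.sum_coe_sort (A ω.1) fun y => ell M (ω.2 : ℤ) y
      rw [e2]
      have e3 := hG ω.1 ω.2 ω.2.2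
      have h0 : 0 ≤ wt A ω * ((A ω.1).card : ℝ)⁻¹ :=
        mul_nonneg (wt_nonneg A ω) (by positivity)
      refine (mul_le_mul_of_nonneg_left e3 h0).trans (le_of_eq ?_)
      field_simp
    · intro j _ hj
      refine Finset.sum_eq_zero fun y _ => ?_
      unfold dbl glue
      simp only
      rw [if_neg fun h => hj (hb h).symm, zero_mul]
    · intro h
      exact absurd (Finset.mem_univ _) h
  unfold Gf Ex
  rw [Fintype.sum_prod_type]
  refine (Finset.sum_le_sum fun ω _ => hinner ω).trans ?_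
  rw [← Finset.sum_mul, sum_wt A hN hA, one_mul]

/-- The information of the time. -/
lemma Kf_bound (M : ℕ) (hM : 0 < M) (hN : 0 < N) (hA : ∀ i, (A i).Nonempty)
    (hb : Function.Injective b) {κ : ℝ} (hκ : 0 < κ) (hd : ∀ i, κ * M ≤ (A i).card) :
    Kf M (wt A) (fun ω : Sp A => b ω.1) (fun ω => (ω.2 : ℤ)) ≤ -Real.log κ := by
  have hN' : (N : ℝ) ≠ 0 := by exact_mod_cast hN.ne'
  have hM' : (0 : ℝ) < M := by exact_mod_cast hM
  have h1 : Real.log (κ * M) ≤ CH (wt A) (fun ω : Sp A => (ω.2 : ℤ)) (fun ω => b ω.1) := by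
    rw [CH_eq_neg_sum (wt_nonneg A)]
    have h2 := Ex_mono (wt_nonneg A) (f := fun _ : Sp A => Real.log (κ * M))
      (g := fun ω => -Real.log (law (wt A) (fun ω : Sp A => ((ω.2 : ℤ), b ω.1))
        ((ω.2 : ℤ), b ω.1) / law (wt A) (fun ω : Sp A => b ω.1) (b ω.1))) (by
        intro ω _
        have hc : (0 : ℝ) < (A ω.1).card := by
          exact_mod_cast Finset.card_pos.mpr (hA ω.1)
        rw [law_full A b hb, law_line A b hA hb]
        have e : wt A ω / (N : ℝ)⁻¹ = ((A ω.1).card : ℝ)⁻¹ := by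
          unfold wt
          field_simp
        rw [e, Real.log_inv, neg_neg]
        exact Real.log_le_log (by positivity) (hd ω.1))
    rwa [Ex_const (sum_wt A hN hA)] at h2
  unfold Kf
  rw [Real.log_mul hκ.ne' hM'.ne'] at h1
  linarith

end Space

/-- **Module X6.** The entropy inequality implies the counting form. -/
theorem dense_of_AKG {d : ℕ} {a lam B₀ B₁ : ℝ} (ha : 1 ≤ a) (hl : 0 ≤ lam) (hB : 0 ≤ B₁)
    (h : AKG d a lam B₀ B₁) : DenseBound d a lam := by
  classical
  intro G₀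
  refine ⟨Real.exp (B₀ + B₁ * G₀), Real.exp_pos _, ?_⟩
  intro M N u v A κ R hM hκ hinj hv hA hd hG hR
  have hM' : (0 : ℝ) < M := by exact_mod_cast hM
  rcases Nat.eq_zero_or_pos N with h0 | hN
  · subst h0
    have hR0 : 0 ≤ R := by
      have := hR 0
      refine le_trans ?_ this
      positivity
    have := Real.exp_pos (B₀ + B₁ * G₀)
    have := Real.rpow_nonneg hR0 a
    have := Real.rpow_nonneg hκ.le (-lam)
    simp only [Nat.cast_zero]
    positivity
  have hN' : (0 : ℝ) < N := by exact_mod_cast hN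
  have hne : ∀ i, (A i).Nonempty := by
    intro i
    rw [← Finset.card_pos]
    have : (0 : ℝ) < (A i).card := lt_of_lt_of_le (by positivity) (hd i)
    exact_mod_cast this
  have hR1 : 1 ≤ R := by
    obtain ⟨j, hj⟩ := hne ⟨0, hN⟩
    refine le_trans ?_ (hR j)
    have : 0 < ((univ.filter fun i => j ∈ A i).image
        fun i => rd (pos M (u i) (v i) j)).card := by
      rw [Finset.card_pos]
      exact ⟨_, Finset.mem_image_of_mem _ (Finset.mem_filter.mpr ⟨Finset.mem_univ ⟨0, hN⟩, hj⟩)⟩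
    exact_mod_cast this
  have hvi : Function.Injective fun i : Fin N => (v i, ()) := by
    intro i j hij
    exact hinj (Prod.ext_iff.mp hij).1
  have hfam : IsFam M (wt A) (fun _ : Sp A => ()) (fun ω => v ω.1) (fun ω => u ω.1)
      (fun ω => (ω.2 : ℤ)) := by
    refine ⟨hM, wt_nonneg A, sum_wt A hN hne, fun ω _ k => hv ω.1 k, ?_, ?_⟩
    · intro ω ω' _ _ hh
      have : ω.1 = ω'.1 := hinj (Prod.ext_iff.mp hh).1
      simp only [this]
    · intro ω _
      have := hA ω.1 ω.2.2
      rw [Finset.mem_Ico] at this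
      exact this
  have hmain := h M (Sp A) Unit (wt A) (fun _ => ()) (fun ω => v ω.1) (fun ω => u ω.1)
    (fun ω => (ω.2 : ℤ)) hfam
  have hK := Kf_bound A (fun i => (v i, ())) M hM hN hne hvi hκ hd
  have hGf := Gf_bound A (fun i => (v i, ())) M hN hne hvi hG
  -- the entropy of the line
  have hL : CH (wt A) (fun ω : Sp A => v ω.1) (fun _ => ()) = Real.log N := by
    rw [CH_eq_neg_sum (wt_nonneg A)]
    have e1 : ∀ ω : Sp A, law (wt A) (fun ω : Sp A => (v ω.1, ())) (v ω.1, ()) /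
        law (wt A) (fun _ : Sp A => ()) () = (N : ℝ)⁻¹ := by
      intro ω
      have e2 : law (wt A) (fun _ : Sp A => ()) () = 1 := by
        unfold law
        simp only [if_true]
        exact sum_wt A hN hne
      rw [e2, div_one]
      exact law_line A (fun i => (v i, ())) hne hvi ω.1
    have e3 : Ex (wt A) (fun ω : Sp A => -Real.log (law (wt A) (fun ω : Sp A => (v ω.1, ()))
        (v ω.1, ()) / law (wt A) (fun _ : Sp A => ()) ())) =
        Ex (wt A) (fun _ => Real.log N) := by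
      unfold Ex
      refine Finset.sum_congr rfl fun ω _ => ?_
      beta_reduce
      rw [e1 ω, Real.log_inv, neg_neg]
    rw [e3, Ex_const (sum_wt A hN hne)]
  -- the entropy of the position
  have hS : Sf M (wt A) (fun _ : Sp A => ()) (fun ω => v ω.1) (fun ω => u ω.1)
      (fun ω => (ω.2 : ℤ)) ≤ Real.log R := by
    unfold Sf
    have h1 := CH_le_card (wt_nonneg A) (sum_wt A hN hne)
      (fun ω : Sp A => rd (pos M (u ω.1) (v ω.1) (ω.2 : ℤ))) (fun ω => ((), (ω.2 : ℤ)))
      (fun w => (univ.filter fun i => w.2 ∈ A i).image fun i => rd (pos M (u i) (v i) w.2))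
      (fun ω _ => Finset.mem_image_of_mem _
        (Finset.mem_filter.mpr ⟨Finset.mem_univ ω.1, ω.2.2⟩))
    refine h1.trans ?_
    have h2 := Ex_mono (wt_nonneg A) (f := fun ω : Sp A => Real.log
      ((((univ.filter fun i => (ω.2 : ℤ) ∈ A i).image
        fun i => rd (pos M (u i) (v i) (ω.2 : ℤ))).card : ℝ))) (g := fun _ => Real.log R) (by
        intro ω _
        refine Real.log_le_log ?_ (hR ω.2)
        have : 0 < ((univ.filter fun i => (ω.2 : ℤ) ∈ A i).image
            fun i => rd (pos M (u i) (v i) (ω.2 : ℤ))).card := by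
          rw [Finset.card_pos]
          exact ⟨_, Finset.mem_image_of_mem _
            (Finset.mem_filter.mpr ⟨Finset.mem_univ ω.1, ω.2.2⟩)⟩
        exact_mod_cast this)
    rwa [Ex_const (sum_wt A hN hne)] at h2
  rw [hL] at hmain
  have hfin : Real.log N ≤ a * Real.log R + lam * (-Real.log κ) + B₀ + B₁ * G₀ := by
    have a1 := mul_le_mul_of_nonneg_left hS (le_trans zero_le_one ha)
    have a2 := mul_le_mul_of_nonneg_left hK hl
    have a3 := mul_le_mul_of_nonneg_left hGf hB
    linarith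
  have hR0 : 0 < R := by linarith
  calc (N : ℝ) = Real.exp (Real.log N) := (Real.exp_log hN').symm
    _ ≤ Real.exp (a * Real.log R + lam * (-Real.log κ) + B₀ + B₁ * G₀) := Real.exp_le_exp.mpr hfin
    _ = Real.exp (B₀ + B₁ * G₀) * κ ^ (-lam) * R ^ a := by
      rw [Real.rpow_def_of_pos hκ, Real.rpow_def_of_pos hR0, ← Real.exp_add, ← Real.exp_add]
      congr 1
      ring

end Pool.Agent.H36.Dense
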