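import Pool.Agent.H32.Dense.Derived

/-!
# Three lines: the lemmas on the second configuration
-/

set_option autoImplicit false

namespace Pool.Agent.H32.Dense

open Finset Real
open Pool.Agent.H49.Ent

section Cfg
variable {d : ℕ} {Ω : Type} [Fintype Ω] {ζ : Type}
variable {M : ℕ} {q : Ω → ℝ} {Z : Ω → ζ} {v₀ v₁ v₂ : Ω → Fin d → ℤ} {u₀ u₁ u₂ : Ω → Fin d → ℝ}
  {t s t₁ r tr ρ c : Ω → ℤ} {L S K G D η x : ℝ}

theorem CCfg.h_lower (h : CCfg M q Z v₀ v₁ v₂ u₀ u₁ u₂ t s tr ρ c L S K G D η x) :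
    3 * L - 2 * S - 5 * K - kapC M q Z t s tr ρ c - etaC M q Z v₀ v₁ v₂ t s tr ρ c ≤
      hC q Z v₀ v₁ v₂ t s tr ρ c := by
  have hq := h.hq
  unfold hC kapC etaC
  have a1 := CH_chain hq (fun w => (v₀ w, v₁ w, v₂ w)) (cC s tr ρ c)
    (fun w => (Z w, t w, s w, tr w))
  have a2 := CH_chain hq (cC s tr ρ c) (fun w => (v₀ w, v₁ w, v₂ w))
    (fun w => (Z w, t w, s w, tr w))
  have a3 : CH q (fun w => ((v₀ w, v₁ w, v₂ w), cC s tr ρ c w)) (fun w => (Z w, t w, s w, tr w)) =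
      CH q (fun w => (cC s tr ρ c w, (v₀ w, v₁ w, v₂ w))) (fun w => (Z w, t w, s w, tr w)) := by
    refine CH_congr hq ?_ ?_ ?_ ?_ <;>
    · intro w w' _ _ e
      simp only [Prod.mk.injEq] at e ⊢
      tauto
  have a4 : CH q (fun w => (v₀ w, v₁ w, v₂ w))
        (fun w => (cC s tr ρ c w, (Z w, t w, s w, tr w))) =
      CH q (fun w => (v₀ w, v₁ w, v₂ w)) (fun w => (Z w, (t w, s w, tr w, cC s tr ρ c w))) := by
    refine CH_congr hq ?_ ?_ ?_ ?_ <;>
    · intro w w' _ _ e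
      simp only [Prod.mk.injEq] at e ⊢
      tauto
  have b1 := CH_chain hq (fun w => (v₀ w, v₁ w, v₂ w)) tr (fun w => (Z w, t w, s w))
  have b2 := CH_chain hq tr (fun w => (v₀ w, v₁ w, v₂ w)) (fun w => (Z w, t w, s w))
  have b3 : CH q (fun w => ((v₀ w, v₁ w, v₂ w), tr w)) (fun w => (Z w, t w, s w)) =
      CH q (fun w => (tr w, (v₀ w, v₁ w, v₂ w))) (fun w => (Z w, t w, s w)) := by
    refine CH_congr hq ?_ ?_ ?_ ?_ <;>
    · intro w w' _ _ e
      simp only [Prod.mk.injEq] at e ⊢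
      tauto
  have b4 : CH q (fun w => (v₀ w, v₁ w, v₂ w)) (fun w => (tr w, (Z w, t w, s w))) =
      CH q (fun w => (v₀ w, v₁ w, v₂ w)) (fun w => (Z w, t w, s w, tr w)) := by
    refine CH_congr hq ?_ ?_ ?_ ?_ <;>
    · intro w w' _ _ e
      simp only [Prod.mk.injEq] at e ⊢
      tauto
  have b5 := CH_time_le hq h.h1 h.htr (fun w => (Z w, t w, s w))
  have b6 := h.cL
  have b7 := h.ctr
  linarith

theorem CCfg.kap_le (h : CCfg M q Z v₀ v₁ v₂ u₀ u₁ u₂ t s tr ρ c L S K G D η x) :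
    kapC M q Z t s tr ρ c ≤ 2.02 * D + 9 := by
  have hq := h.hq
  unfold kapC
  have a1 := CH_le_tail h.hM hq h.h1 (cC s tr ρ c) (fun w => (Z w, t w, s w, tr w))
  have a2 : Ex q (fun ω => Real.log (1 + |(cC s tr ρ c ω : ℝ)| / M)) ≤
      Ex q (fun ω => (1 + Real.log (1 + |kap (s ω) (tr ω) (ρ ω)|)) +
        Real.log (1 + |(c ω : ℝ)| / M)) :=
    Ex_mono hq fun ω _ => log_floor_mul_le h.hM _ _
  rw [Ex_add, Ex_add, Ex_const h.h1] at a2
  have a3 := h.D₁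
  have a4 := h.Dc
  linarith

theorem CCfg.eta_ge (h : CCfg M q Z v₀ v₁ v₂ u₀ u₁ u₂ t s tr ρ c L S K G D η x) :
    -kapC M q Z t s tr ρ c ≤ etaC M q Z v₀ v₁ v₂ t s tr ρ c := by
  have hq := h.hq
  unfold kapC etaC
  have a1 : CH q (cC s tr ρ c) (fun w => ((v₀ w, v₁ w, v₂ w), Z w, t w, s w, tr w)) ≤
      CH q (cC s tr ρ c) (fun w => (Z w, t w, s w, tr w)) := by
    refine CH_mono_cond hq ?_
    intro w w' _ _ e
    simp only [Prod.mk.injEq] at e ⊢
    tauto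
  linarith

/-- The coefficient `c` is almost determined by `c₂` and the times. -/
theorem CCfg.c_le (h : CCfg M q Z v₀ v₁ v₂ u₀ u₁ u₂ t s tr ρ c L S K G D η x) {T : Type*}
    (W : Ω → T) (hW : Det q W (fun w => (s w, tr w, ρ w, cC s tr ρ c w))) :
    CH q c W ≤ D + 1 := by
  have hq := h.hq
  have a1 := CH_le_int hq h.h1 c W (fun w => |kap (s w) (tr w) (ρ w)|⁻¹) (by
    intro w w' hw hw' e
    have e1 := hW w w' hw hw' e
    simp only [Prod.mk.injEq] at e1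
    obtain ⟨e1, e2, e3, e4⟩ := e1
    unfold cC at e4
    rw [← e1, ← e2, ← e3] at e4
    have := floor_eq_close (kap_pos _ _ _) e4
    push_cast
    exact this)
  have a2 : Ex q (fun w => Real.log (2 * |kap (s w) (tr w) (ρ w)|⁻¹ + 1)) ≤
      Ex q (fun w => 1 + Real.log (1 + |kap (s w) (tr w) (ρ w)|⁻¹)) :=
    Ex_mono hq fun w _ => log_two_mul_add (inv_nonneg.mpr (abs_nonneg _))
  rw [Ex_add, Ex_const h.h1] at a2
  have a3 := h.D₂
  linarith

theorem CCfg.eta_le (h : CCfg M q Z v₀ v₁ v₂ u₀ u₁ u₂ t s tr ρ c L S K G D η x) :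
    etaC M q Z v₀ v₁ v₂ t s tr ρ c ≤ η + D + 1 := by
  have hq := h.hq
  unfold etaC
  have a1 := CH_le_add hq c (cC s tr ρ c)
    (fun w => (ρ w, (v₀ w, v₁ w, v₂ w), Z w, t w, s w, tr w))
  have a2 : CH q (cC s tr ρ c) (fun w => (ρ w, (v₀ w, v₁ w, v₂ w), Z w, t w, s w, tr w)) ≤
      CH q (cC s tr ρ c) (fun w => ((v₀ w, v₁ w, v₂ w), Z w, t w, s w, tr w)) := by
    refine CH_mono_cond hq ?_
    intro w w' _ _ e
    simp only [Prod.mk.injEq] at e ⊢
    tauto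
  have a3 := h.c_le (fun w => (cC s tr ρ c w, (ρ w, (v₀ w, v₁ w, v₂ w), Z w, t w, s w, tr w))) (by
    intro w w' _ _ e
    simp only [Prod.mk.injEq] at e ⊢
    tauto)
  have a4 := h.cc
  linarith

/-- The time `ρ` is almost uniform given the rest. -/
theorem CCfg.rho_ge (h : CCfg M q Z v₀ v₁ v₂ u₀ u₁ u₂ t s tr ρ c L S K G D η x) :
    Real.log M - CH q ρ (fun w => ((v₀ w, v₁ w, v₂ w), Z w, (t w, s w, tr w, cC s tr ρ c w))) ≤
      K + η - etaC M q Z v₀ v₁ v₂ t s tr ρ c + D + 1 := by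
  have hq := h.hq
  unfold etaC
  have a1 := CH_chain hq ρ c (fun w => ((v₀ w, v₁ w, v₂ w), Z w, t w, s w, tr w))
  have a2 : CH q c (fun w => (ρ w, (v₀ w, v₁ w, v₂ w), Z w, t w, s w, tr w)) ≤
      CH q c (fun w => ((v₀ w, v₁ w, v₂ w), Z w, t w, s w, tr w)) := by
    refine CH_mono_cond hq ?_
    intro w w' _ _ e
    simp only [Prod.mk.injEq] at e ⊢
    tauto
  have a3 := h.cc
  have a4 := h.cρ
  have a5 := CH_le_add hq (fun w => (ρ w, c w)) (cC s tr ρ c)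
    (fun w => ((v₀ w, v₁ w, v₂ w), Z w, t w, s w, tr w))
  have a6 := CH_chain hq c ρ
    (fun w => (cC s tr ρ c w, ((v₀ w, v₁ w, v₂ w), Z w, t w, s w, tr w)))
  have a7 : CH q (fun w => (ρ w, c w))
        (fun w => (cC s tr ρ c w, ((v₀ w, v₁ w, v₂ w), Z w, t w, s w, tr w))) =
      CH q (fun w => (c w, ρ w))
        (fun w => (cC s tr ρ c w, ((v₀ w, v₁ w, v₂ w), Z w, t w, s w, tr w))) := by
    refine CH_congr hq ?_ ?_ ?_ ?_ <;>
    · intro w w' _ _ e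
      simp only [Prod.mk.injEq] at e ⊢
      tauto
  have a8 : CH q ρ (fun w => (cC s tr ρ c w, ((v₀ w, v₁ w, v₂ w), Z w, t w, s w, tr w))) =
      CH q ρ (fun w => ((v₀ w, v₁ w, v₂ w), Z w, (t w, s w, tr w, cC s tr ρ c w))) := by
    refine CH_congr hq ?_ ?_ ?_ ?_ <;>
    · intro w w' _ _ e
      simp only [Prod.mk.injEq] at e ⊢
      tauto
  have a9 := h.c_le (fun w => (ρ w, (cC s tr ρ c w, ((v₀ w, v₁ w, v₂ w), Z w, t w, s w, tr w)))) (by
    intro w w' _ _ e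
    simp only [Prod.mk.injEq] at e ⊢
    tauto)
  linarith

lemma rd_eq_abs {a b : ℝ} (h : ⌊a⌋ = ⌊b⌋) : |a - b| ≤ 1 :=
  (Int.abs_sub_lt_one_of_floor_eq_floor h).le

lemma floor_sub_le {a b C : ℝ} (h : |a - b| ≤ C) : |((⌊a⌋ - ⌊b⌋ : ℤ) : ℝ)| ≤ C + 1 := by
  have h1 := Int.floor_le a
  have h2 := Int.lt_floor_add_one a
  have h3 := Int.floor_le b
  have h4 := Int.lt_floor_add_one b
  obtain ⟨h5, h6⟩ := abs_le.mp h
  push_cast
  rw [abs_le]
  constructor <;> linarith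

/-- `|y| ≤ 2 M / max |n| 1` as soon as `|(n / M) y| ≤ 2` and `|y| ≤ 2 M`. -/
lemma abs_le_two_div {M : ℕ} (hM : 0 < M) {n : ℤ} {y : ℝ} (h1 : |(n : ℝ) / M * y| ≤ 2)
    (h2 : |y| ≤ 2 * M) : |y| ≤ 2 * (M / max |(n : ℝ)| 1) := by
  have hM0 : (0 : ℝ) < M := by exact_mod_cast hM
  rcases eq_or_ne n 0 with hn | hn
  · subst hn
    simp only [Int.cast_zero, abs_zero]
    rw [max_eq_right zero_le_one, div_one]
    exact h2
  · have hn1 : (1 : ℝ) ≤ |(n : ℝ)| := by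
      have : (1 : ℤ) ≤ |n| := Int.one_le_abs hn
      exact_mod_cast this
    have hn0 : (0 : ℝ) < |(n : ℝ)| := by linarith
    rw [max_eq_left hn1]
    rw [abs_mul, abs_div, Nat.abs_cast] at h1
    have : |y| = (M / |(n : ℝ)|) * (|(n : ℝ)| / M * |y|) := by field_simp
    rw [this]
    calc (M / |(n : ℝ)|) * (|(n : ℝ)| / M * |y|) ≤ (M / |(n : ℝ)|) * 2 := by gcongr
      _ = _ := by ring

/-- Entropy of `v₁` given the functional. -/
theorem CCfg.v1_le (h : CCfg M q Z v₀ v₁ v₂ u₀ u₁ u₂ t s tr ρ c L S K G D η x) {T : Type*}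
    (W : Ω → T) (hW : ∀ w w', 0 < q w → 0 < q w' → W w = W w' →
      cC s tr ρ c w = cC s tr ρ c w' ∧
      ∀ k, |(cC s tr ρ c w : ℝ) / M * ((v₁ w k : ℝ) - v₁ w' k)| ≤ 2) :
    CH q v₁ W ≤ d * (G + 2 * D + 4) := by
  have hq := h.hq
  have hM0 : (0 : ℝ) < M := by exact_mod_cast h.hM
  have a1 := CH_le_vec hq h.h1 v₁ W (fun w => 2 * (M / max |(cC s tr ρ c w : ℝ)| 1)) (by
    intro w w' hw hw' e k
    obtain ⟨e1, e2⟩ := hW w w' hw hw' e
    have b1 : |(v₁ w k : ℝ)| ≤ M := by exact_mod_cast h.hv₁ w hw k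
    have b2 : |(v₁ w' k : ℝ)| ≤ M := by exact_mod_cast h.hv₁ w' hw' k
    have b3 : |(v₁ w k : ℝ) - v₁ w' k| ≤ 2 * M := by
      have := abs_sub (v₁ w k : ℝ) (v₁ w' k : ℝ)
      linarith
    have := abs_le_two_div h.hM (e2 k) b3
    push_cast
    exact this)
  refine a1.trans ?_
  refine mul_le_mul_of_nonneg_left ?_ (Nat.cast_nonneg d)
  have a2 : Ex q (fun w => Real.log (2 * (2 * (M / max |(cC s tr ρ c w : ℝ)| 1)) + 1)) ≤
      Ex q (fun w => (3 + Real.log (1 + M / max |(c w : ℝ)| 1)) +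
        Real.log (1 + |kap (s w) (tr w) (ρ w)|⁻¹)) := by
    refine Ex_mono hq fun w _ => ?_
    have b1 := log_floor_mul (M := M) (kap_pos (s w) (tr w) (ρ w)) (c w)
    have b0 : (0 : ℝ) ≤ M / max |(cC s tr ρ c w : ℝ)| 1 := by positivity
    have b2 : Real.log (2 * (2 * (M / max |(cC s tr ρ c w : ℝ)| 1)) + 1) ≤
        2 + Real.log (1 + M / max |(cC s tr ρ c w : ℝ)| 1) := by
      calc Real.log (2 * (2 * (M / max |(cC s tr ρ c w : ℝ)| 1)) + 1)
          ≤ Real.log ((2 * 2) * (1 + M / max |(cC s tr ρ c w : ℝ)| 1)) := by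
            apply Real.log_le_log (by positivity)
            linarith
        _ = Real.log 2 + Real.log 2 + Real.log (1 + M / max |(cC s tr ρ c w : ℝ)| 1) := by
            rw [Real.log_mul (by norm_num) (by positivity), Real.log_mul (by norm_num)
              (by norm_num)]
        _ ≤ _ := by
            have := log_two_le_one
            linarith
    have b3 : Real.log (1 + M / max |(cC s tr ρ c w : ℝ)| 1) ≤
      1 + Real.log (1 + M / max |(c w : ℝ)| 1) + Real.log (1 + |kap (s w) (tr w) (ρ w)|⁻¹) := b1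
    linarith
  rw [Ex_add, Ex_add, Ex_const h.h1] at a2
  have a3 := h.Gc
  have a4 := h.D₂
  linarith

/-- The functional `Y` is almost determined by the functional `X` and the slice. -/
theorem CCfg.Y_close (h : CCfg M q Z v₀ v₁ v₂ u₀ u₁ u₂ t s tr ρ c L S K G D η x) {w w' : Ω}
    (hw : 0 < q w) (hw' : 0 < q w') (hs : s w = s w') (htr : tr w = tr w') (hρ : ρ w = ρ w')
    (hc : c w = c w') (hP : rd (pos M (u₂ w) (v₂ w) (ρ w)) = rd (pos M (u₂ w') (v₂ w') (ρ w')))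
    (hX : xf M (u₀ w) (v₀ w) (s w) (c w) (v₁ w) = xf M (u₀ w') (v₀ w') (s w') (c w') (v₁ w'))
    (k : Fin d) :
    |((xf M (u₂ w) (v₂ w) (tr w) (cC s tr ρ c w) (v₁ w) k -
      xf M (u₂ w') (v₂ w') (tr w') (cC s tr ρ c w') (v₁ w') k : ℤ) : ℝ)| ≤
      8 * (1 + |kap (s w) (tr w) (ρ w)|) := by
  have hM0 : (0 : ℝ) < M := by exact_mod_cast h.hM
  have hcC : cC s tr ρ c w = cC s tr ρ c w' := by
    unfold cC
    rw [hs, htr, hρ, hc]
  have key : |(pos M (u₂ w) (v₂ w) (tr w) k + (cC s tr ρ c w : ℝ) / M * v₁ w k) -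
      (pos M (u₂ w') (v₂ w') (tr w') k + (cC s tr ρ c w' : ℝ) / M * v₁ w' k)| ≤
      7 + 8 * |kap (s w) (tr w) (ρ w)| := by
    rw [← hcC, ← htr]
    -- the data
    have e1 : |pos M (u₂ w) (v₂ w) (ρ w) k - pos M (u₂ w') (v₂ w') (ρ w) k| ≤ 1 := by
      have := congrFun hP k
      rw [← hρ] at this
      exact rd_eq_abs this
    have e2 : |pos M (u₀ w) (v₀ w) (s w) k - pos M (u₂ w) (v₂ w) (s w) k| ≤ 1 :=
      rd_eq_abs (congrFun (h.cross02 w hw) k)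
    have e3 : |pos M (u₀ w') (v₀ w') (s w) k - pos M (u₂ w') (v₂ w') (s w) k| ≤ 1 := by
      have := rd_eq_abs (congrFun (h.cross02 w' hw') k)
      rw [← hs] at this
      exact this
    have e4 : |(pos M (u₀ w) (v₀ w) (s w) k + (c w : ℝ) / M * v₁ w k) -
        (pos M (u₀ w') (v₀ w') (s w) k + (c w : ℝ) / M * v₁ w' k)| ≤ 1 := by
      have := congrFun hX k
      rw [← hs, ← hc] at this
      exact rd_eq_abs this
    have b1 : |(v₁ w k : ℝ)| ≤ M := by exact_mod_cast h.hv₁ w hw k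
    have b2 : |(v₁ w' k : ℝ)| ≤ M := by exact_mod_cast h.hv₁ w' hw' k
    have b3 : |(v₂ w k : ℝ)| ≤ M := by exact_mod_cast h.hv₂ w hw k
    have b4 : |(v₂ w' k : ℝ)| ≤ M := by exact_mod_cast h.hv₂ w' hw' k
    -- the time `hat`
    obtain ⟨h1, h2, h3, h4⟩ := hat_spec (s w) (tr w) (ρ w)
    have h3' : (ρ w : ℝ) ≤ hat (s w) (tr w) (ρ w) := by exact_mod_cast h3
    have h4' : (hat (s w) (tr w) (ρ w) : ℝ) ≤ ρ w + 2 := by exact_mod_cast h4
    have hne : (hat (s w) (tr w) (ρ w) : ℝ) - s w ≠ 0 := sub_ne_zero.mpr (by exact_mod_cast h1)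
    set x₀ : ℝ := (hat (s w) (tr w) (ρ w) : ℝ) with hx₀
    set κ := kap (s w) (tr w) (ρ w) with hκ
    have hκx : κ * (x₀ - s w) = x₀ - tr w := by
      rw [hκ, kap, ← hx₀]
      field_simp
    set f : ℝ := κ * (c w : ℝ) - cC s tr ρ c w with hf
    have hf0 : |f| ≤ 1 := by
      have i1 := Int.floor_le (κ * (c w : ℝ))
      have i2 := Int.lt_floor_add_one (κ * (c w : ℝ))
      have i3 : (cC s tr ρ c w : ℝ) = ⌊κ * (c w : ℝ)⌋ := rfl
      rw [hf, i3, abs_le]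
      constructor <;> linarith
    -- the identity
    have id1 : ∀ w₁ : Ω, pos M (u₂ w₁) (v₂ w₁) (tr w) k + (cC s tr ρ c w : ℝ) / M * v₁ w₁ k =
        (1 - κ) * (pos M (u₂ w₁) (v₂ w₁) (ρ w) k + (x₀ - ρ w) / M * v₂ w₁ k) -
        κ * (pos M (u₀ w₁) (v₀ w₁) (s w) k - pos M (u₂ w₁) (v₂ w₁) (s w) k) +
        κ * (pos M (u₀ w₁) (v₀ w₁) (s w) k + (c w : ℝ) / M * v₁ w₁ k) -
        f * (v₁ w₁ k / M) := by
      intro w₁
      unfold pos
      have : (tr w : ℝ) = x₀ - κ * (x₀ - s w) := by rw [hκx]; ring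
      rw [this, hf]
      field_simp
      ring
    rw [id1 w, id1 w']
    have hA : |(x₀ - ρ w) / M * v₂ w k| ≤ 2 := by
      rw [abs_mul, abs_div, Nat.abs_cast, abs_of_nonneg (by linarith : 0 ≤ x₀ - ρ w)]
      calc (x₀ - ρ w) / M * |(v₂ w k : ℝ)| ≤ 2 / M * M := by gcongr; linarith
        _ = 2 := by field_simp
    have hA' : |(x₀ - ρ w) / M * v₂ w' k| ≤ 2 := by
      rw [abs_mul, abs_div, Nat.abs_cast, abs_of_nonneg (by linarith : 0 ≤ x₀ - ρ w)]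
      calc (x₀ - ρ w) / M * |(v₂ w' k : ℝ)| ≤ 2 / M * M := by gcongr; linarith
        _ = 2 := by field_simp
    have hB : |f * (v₁ w k / M)| ≤ 1 := by
      rw [abs_mul, abs_div, Nat.abs_cast]
      have : |(v₁ w k : ℝ)| / M ≤ 1 := by rw [div_le_one hM0]; exact b1
      have := mul_le_mul hf0 this (by positivity) zero_le_one
      linarith
    have hB' : |f * (v₁ w' k / M)| ≤ 1 := by
      rw [abs_mul, abs_div, Nat.abs_cast]
      have : |(v₁ w' k : ℝ)| / M ≤ 1 := by rw [div_le_one hM0]; exact b2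
      have := mul_le_mul hf0 this (by positivity) zero_le_one
      linarith
    have hC1 : |(1 - κ) * (pos M (u₂ w) (v₂ w) (ρ w) k + (x₀ - ρ w) / M * v₂ w k) -
        (1 - κ) * (pos M (u₂ w') (v₂ w') (ρ w) k + (x₀ - ρ w) / M * v₂ w' k)| ≤
        (1 + |κ|) * 5 := by
      rw [← mul_sub, abs_mul]
      have i1 : |1 - κ| ≤ 1 + |κ| := by
        have := abs_sub (1 : ℝ) κ
        rw [abs_one] at this
        exact this
      have i2 : |(pos M (u₂ w) (v₂ w) (ρ w) k + (x₀ - ρ w) / M * v₂ w k) -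
        (pos M (u₂ w') (v₂ w') (ρ w) k + (x₀ - ρ w) / M * v₂ w' k)| ≤ 5 := by
        rw [abs_le] at *
        constructor <;> linarith
      exact mul_le_mul i1 i2 (abs_nonneg _) (by positivity)
    have hC2 : |κ * (pos M (u₀ w) (v₀ w) (s w) k - pos M (u₂ w) (v₂ w) (s w) k) -
        κ * (pos M (u₀ w') (v₀ w') (s w) k - pos M (u₂ w') (v₂ w') (s w) k)| ≤ |κ| * 2 := by
      rw [← mul_sub, abs_mul]
      refine mul_le_mul_of_nonneg_left ?_ (abs_nonneg _)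
      rw [abs_le] at *
      constructor <;> linarith
    have hC3 : |κ * (pos M (u₀ w) (v₀ w) (s w) k + (c w : ℝ) / M * v₁ w k) -
        κ * (pos M (u₀ w') (v₀ w') (s w) k + (c w : ℝ) / M * v₁ w' k)| ≤ |κ| * 1 := by
      rw [← mul_sub, abs_mul]
      exact mul_le_mul_of_nonneg_left e4 (abs_nonneg _)
    clear_value x₀ f κ
    clear id1 e1 e2 e3 e4 hP hX
    rw [abs_le] at hC1 hC2 hC3 hB hB' ⊢
    constructor <;> linarith [hC1.1, hC1.2, hC2.1, hC2.2, hC3.1, hC3.2, hB.1, hB.2, hB'.1, hB'.2]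
  have := floor_sub_le key
  calc |((xf M (u₂ w) (v₂ w) (tr w) (cC s tr ρ c w) (v₁ w) k -
      xf M (u₂ w') (v₂ w') (tr w') (cC s tr ρ c w') (v₁ w') k : ℤ) : ℝ)| ≤
        7 + 8 * |kap (s w) (tr w) (ρ w)| + 1 := this
    _ = _ := by ring

/-- Entropy of the pair (slice, `Y`). -/
theorem CCfg.slice_le (h : CCfg M q Z v₀ v₁ v₂ u₀ u₁ u₂ t s tr ρ c L S K G D η x) :
    CH q (fun w => (rd (pos M (u₂ w) (v₂ w) (ρ w)),
        xf M (u₂ w) (v₂ w) (tr w) (cC s tr ρ c w) (v₁ w)))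
      (fun w => (Z w, (t w, s w, tr w, cC s tr ρ c w), ρ w)) ≤
      S + x + (D + 1) + d * (D + 3) := by
  have hq := h.hq
  have a1 := CH_le_add hq (fun w => (rd (pos M (u₂ w) (v₂ w) (ρ w)),
        xf M (u₂ w) (v₂ w) (tr w) (cC s tr ρ c w) (v₁ w))) c
      (fun w => (Z w, (t w, s w, tr w, cC s tr ρ c w), ρ w))
  have a2 := h.c_le (fun w => (Z w, (t w, s w, tr w, cC s tr ρ c w), ρ w)) (by
    intro w w' _ _ e
    simp only [Prod.mk.injEq] at e ⊢
    tauto)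
  have a3 := CH_le_add hq (fun w => (rd (pos M (u₂ w) (v₂ w) (ρ w)),
        xf M (u₂ w) (v₂ w) (tr w) (cC s tr ρ c w) (v₁ w)))
      (fun w => (rd (pos M (u₂ w) (v₂ w) (ρ w)), xf M (u₀ w) (v₀ w) (s w) (c w) (v₁ w)))
      (fun w => (c w, (Z w, (t w, s w, tr w, cC s tr ρ c w), ρ w)))
  have a4 := CH_subadd hq (fun w => rd (pos M (u₂ w) (v₂ w) (ρ w)))
      (fun w => xf M (u₀ w) (v₀ w) (s w) (c w) (v₁ w))
      (fun w => (c w, (Z w, (t w, s w, tr w, cC s tr ρ c w), ρ w)))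
  have a5 : CH q (fun w => rd (pos M (u₂ w) (v₂ w) (ρ w)))
        (fun w => (c w, (Z w, (t w, s w, tr w, cC s tr ρ c w), ρ w))) ≤
      CH q (fun w => rd (pos M (u₂ w) (v₂ w) (ρ w))) (fun w => (Z w, ρ w)) := by
    refine CH_mono_cond hq ?_
    intro w w' _ _ e
    simp only [Prod.mk.injEq] at e ⊢
    tauto
  have a6 : CH q (fun w => xf M (u₀ w) (v₀ w) (s w) (c w) (v₁ w))
        (fun w => (c w, (Z w, (t w, s w, tr w, cC s tr ρ c w), ρ w))) ≤
      CH q (fun w => xf M (u₀ w) (v₀ w) (s w) (c w) (v₁ w)) (fun w => (Z w, (t w, s w, c w))) := by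
    refine CH_mono_cond hq ?_
    intro w w' _ _ e
    simp only [Prod.mk.injEq] at e ⊢
    tauto
  have a7 : CH q (fun w => (rd (pos M (u₂ w) (v₂ w) (ρ w)),
        xf M (u₂ w) (v₂ w) (tr w) (cC s tr ρ c w) (v₁ w)))
      (fun w => ((rd (pos M (u₂ w) (v₂ w) (ρ w)), xf M (u₀ w) (v₀ w) (s w) (c w) (v₁ w)),
        (c w, (Z w, (t w, s w, tr w, cC s tr ρ c w), ρ w)))) =
      CH q (fun w => xf M (u₂ w) (v₂ w) (tr w) (cC s tr ρ c w) (v₁ w))
      (fun w => ((rd (pos M (u₂ w) (v₂ w) (ρ w)), xf M (u₀ w) (v₀ w) (s w) (c w) (v₁ w)),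
        (c w, (Z w, (t w, s w, tr w, cC s tr ρ c w), ρ w)))) := by
    refine CH_congr hq ?_ ?_ ?_ ?_ <;>
    · intro w w' _ _ e
      simp only [Prod.mk.injEq] at e ⊢
      tauto
  have a8 := CH_le_vec hq h.h1 (fun w => xf M (u₂ w) (v₂ w) (tr w) (cC s tr ρ c w) (v₁ w))
      (fun w => ((rd (pos M (u₂ w) (v₂ w) (ρ w)), xf M (u₀ w) (v₀ w) (s w) (c w) (v₁ w)),
        (c w, (Z w, (t w, s w, tr w, cC s tr ρ c w), ρ w))))
      (fun w => 8 * (1 + |kap (s w) (tr w) (ρ w)|)) (by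
    intro w w' hw hw' e k
    simp only [Prod.mk.injEq] at e
    obtain ⟨⟨e1, e2⟩, e3, e4, ⟨e5, e6, e7, e8⟩, e9⟩ := e
    exact h.Y_close hw hw' e6 e7 e9 e3 e1 e2 k)
  have a9 : Ex q (fun w => Real.log (2 * (8 * (1 + |kap (s w) (tr w) (ρ w)|)) + 1)) ≤
      Ex q (fun w => 3 + Real.log (1 + |kap (s w) (tr w) (ρ w)|)) := by
    refine Ex_mono hq fun w _ => ?_
    have i0 := abs_nonneg (kap (s w) (tr w) (ρ w))
    have i1 : Real.log 17 ≤ 3 := by
      rw [Real.log_le_iff_le_exp (by norm_num)]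
      have := Real.exp_one_gt_d9
      calc (17 : ℝ) ≤ (2.7) ^ 3 := by norm_num
        _ ≤ (Real.exp 1) ^ 3 := by gcongr; linarith
        _ = Real.exp 3 := by rw [← Real.exp_nat_mul]; norm_num
    calc Real.log (2 * (8 * (1 + |kap (s w) (tr w) (ρ w)|)) + 1)
        ≤ Real.log (17 * (1 + |kap (s w) (tr w) (ρ w)|)) := by
          apply Real.log_le_log (by positivity)
          linarith
      _ = Real.log 17 + Real.log (1 + |kap (s w) (tr w) (ρ w)|) := by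
          rw [Real.log_mul (by norm_num) (by positivity)]
      _ ≤ _ := by linarith
  rw [Ex_add, Ex_const h.h1] at a9
  have a10 : (d : ℝ) * Ex q (fun w => Real.log (2 * (8 * (1 + |kap (s w) (tr w) (ρ w)|)) + 1)) ≤
      d * (D + 3) := by
    refine mul_le_mul_of_nonneg_left ?_ (Nat.cast_nonneg d)
    have := h.D₁
    linarith
  have a11 := h.Sρ
  have a12 := h.hx
  linarith

/-- The three lines are almost determined by the line 2, the times and `Y`. -/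
theorem CCfg.rest_le (h : CCfg M q Z v₀ v₁ v₂ u₀ u₁ u₂ t s tr ρ c L S K G D η x) :
    CH q (fun w => (v₀ w, v₁ w, v₂ w)) (fun w => (v₂ w, Z w, (t w, s w, tr w, cC s tr ρ c w),
      xf M (u₂ w) (v₂ w) (tr w) (cC s tr ρ c w) (v₁ w))) ≤ d * (2 * G + 2 * D + 6) := by
  have hq := h.hq
  have hM0 : (0 : ℝ) < M := by exact_mod_cast h.hM
  have hM1 : (1 : ℝ) ≤ M := by exact_mod_cast h.hM
  have a1 : CH q (fun w => (v₀ w, v₁ w, v₂ w)) (fun w => (v₂ w, Z w,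
        (t w, s w, tr w, cC s tr ρ c w), xf M (u₂ w) (v₂ w) (tr w) (cC s tr ρ c w) (v₁ w))) =
      CH q (fun w => (v₀ w, v₁ w)) (fun w => (v₂ w, Z w,
        (t w, s w, tr w, cC s tr ρ c w), xf M (u₂ w) (v₂ w) (tr w) (cC s tr ρ c w) (v₁ w))) := by
    refine CH_congr hq ?_ ?_ ?_ ?_ <;>
    · intro w w' _ _ e
      simp only [Prod.mk.injEq] at e ⊢
      tauto
  rw [a1, CH_chain hq]
  have a2 := h.v1_le (fun w => (v₂ w, Z w,
        (t w, s w, tr w, cC s tr ρ c w), xf M (u₂ w) (v₂ w) (tr w) (cC s tr ρ c w) (v₁ w))) (by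
    intro w w' hw hw' e
    simp only [Prod.mk.injEq] at e
    obtain ⟨e1, e2, ⟨e3, e4, e5, e6⟩, e7⟩ := e
    have e8 : u₂ w = u₂ w' := h.hu₂ w w' hw hw' (by simp only [Prod.mk.injEq]; exact ⟨e1, e2⟩)
    refine ⟨e6, fun k => ?_⟩
    have i1 := rd_eq_abs (congrFun e7 k)
    rw [← e1, ← e8, ← e5, ← e6] at i1
    have i2 : (pos M (u₂ w) (v₂ w) (tr w) k + (cC s tr ρ c w : ℝ) / M * v₁ w k) -
      (pos M (u₂ w) (v₂ w) (tr w) k + (cC s tr ρ c w : ℝ) / M * v₁ w' k) =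
      (cC s tr ρ c w : ℝ) / M * ((v₁ w k : ℝ) - v₁ w' k) := by ring
    rw [i2] at i1
    linarith)
  have a3 := CH_le_vec hq h.h1 v₀ (fun w => (v₁ w, (v₂ w, Z w,
        (t w, s w, tr w, cC s tr ρ c w), xf M (u₂ w) (v₂ w) (tr w) (cC s tr ρ c w) (v₁ w))))
      (fun w => 2 * (M / max |((s w - t w : ℤ) : ℝ)| 1)) (by
    intro w w' hw hw' e k
    simp only [Prod.mk.injEq] at e
    obtain ⟨e0, e1, e2, ⟨e3, e4, e5, e6⟩, e7⟩ := e
    have e8 : u₂ w = u₂ w' := h.hu₂ w w' hw hw' (by simp only [Prod.mk.injEq]; exact ⟨e1, e2⟩)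
    have e9 : u₁ w = u₁ w' := h.hu₁ w w' hw hw' (by simp only [Prod.mk.injEq]; exact ⟨e0, e2⟩)
    have j1 : |pos M (u₀ w) (v₀ w) (t w) k - pos M (u₀ w') (v₀ w') (t w) k| ≤ 1 := by
      refine rd_eq_abs ?_
      have k1 := congrFun (h.cross01 w hw) k
      have k2 := congrFun (h.cross01 w' hw') k
      rw [← e3, ← e9, ← e0] at k2
      exact k1.trans k2.symm
    have j2 : |pos M (u₀ w) (v₀ w) (s w) k - pos M (u₀ w') (v₀ w') (s w) k| ≤ 1 := by
      refine rd_eq_abs ?_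
      have k1 := congrFun (h.cross02 w hw) k
      have k2 := congrFun (h.cross02 w' hw') k
      rw [← e4, ← e8, ← e1] at k2
      exact k1.trans k2.symm
    have b1 : |(v₀ w k : ℝ)| ≤ M := by exact_mod_cast h.hv₀ w hw k
    have b2 : |(v₀ w' k : ℝ)| ≤ M := by exact_mod_cast h.hv₀ w' hw' k
    have b3 : |(v₀ w k : ℝ) - v₀ w' k| ≤ 2 * M := by
      have := abs_sub (v₀ w k : ℝ) (v₀ w' k : ℝ)
      linarith
    have b4 : |((s w - t w : ℤ) : ℝ) / M * ((v₀ w k : ℝ) - v₀ w' k)| ≤ 2 := by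
      have : ((s w - t w : ℤ) : ℝ) / M * ((v₀ w k : ℝ) - v₀ w' k) =
          (pos M (u₀ w) (v₀ w) (s w) k - pos M (u₀ w') (v₀ w') (s w) k) -
          (pos M (u₀ w) (v₀ w) (t w) k - pos M (u₀ w') (v₀ w') (t w) k) := by
        unfold pos
        push_cast
        ring
      rw [this]
      rw [abs_le] at j1 j2 ⊢
      constructor <;> linarith [j1.1, j1.2, j2.1, j2.2]
    have := abs_le_two_div h.hM b4 b3
    push_cast at this ⊢
    exact this)
  have a4 : Ex q (fun w => Real.log (2 * (2 * (M / max |((s w - t w : ℤ) : ℝ)| 1)) + 1)) ≤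
      Ex q (fun w => 2 + ell M (s w) (t w)) := by
    refine Ex_mono hq fun w hw => ?_
    have k1 : (0 : ℝ) ≤ t w := by exact_mod_cast (h.ht w hw).1
    have k2 : (t w : ℝ) < M := by exact_mod_cast (h.ht w hw).2
    have k3 : (0 : ℝ) ≤ s w := by exact_mod_cast (h.hs w hw).1
    have k4 : (s w : ℝ) < M := by exact_mod_cast (h.hs w hw).2
    have k5 : |(s w : ℝ) - t w| ≤ M := abs_le.mpr ⟨by linarith, by linarith⟩
    have k6 : (0 : ℝ) < max |(s w : ℝ) - t w| 1 := lt_of_lt_of_le one_pos (le_max_right _ _)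
    have k7 : 1 ≤ M / max |(s w : ℝ) - t w| 1 := by
      rw [one_le_div k6]
      exact max_le k5 hM1
    have i1 : Real.log 5 ≤ 2 := by
      rw [Real.log_le_iff_le_exp (by norm_num)]
      have := Real.exp_one_gt_d9
      calc (5 : ℝ) ≤ (2.7) ^ 2 := by norm_num
        _ ≤ (Real.exp 1) ^ 2 := by gcongr; linarith
        _ = Real.exp 2 := by rw [← Real.exp_nat_mul]; norm_num
    unfold ell
    push_cast
    calc Real.log (2 * (2 * (M / max |(s w : ℝ) - t w| 1)) + 1)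
        ≤ Real.log (5 * (M / max |(s w : ℝ) - t w| 1)) := by
          apply Real.log_le_log (by positivity)
          linarith
      _ = Real.log 5 + Real.log (M / max |(s w : ℝ) - t w| 1) := by
          rw [Real.log_mul (by norm_num) (by positivity)]
      _ ≤ _ := by linarith
  rw [Ex_add, Ex_const h.h1] at a4
  have a5 : (d : ℝ) * Ex q (fun w => Real.log (2 * (2 * (M / max |((s w - t w : ℤ) : ℝ)| 1)) + 1)) ≤
      d * (G + 2) := by
    refine mul_le_mul_of_nonneg_left ?_ (Nat.cast_nonneg d)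
    have := h.Gst
    linarith
  have a6 : (d : ℝ) * (2 * G + 2 * D + 6) = d * (G + 2 * D + 4) + d * (G + 2) := by ring
  rw [a6]
  exact add_le_add a2 (a3.trans a5)

theorem CCfg.I (h : CCfg M q Z v₀ v₁ v₂ u₀ u₁ u₂ t s tr ρ c L S K G D η x) {a lam B : ℝ}
    (hA : AKD d a lam B) (ha : 0 ≤ a) (hl : 0 ≤ lam) :
    hC q Z v₀ v₁ v₂ t s tr ρ c + (a - 1) * yC M q Z v₁ v₂ u₂ t s tr ρ c ≤
      a * (S + x + (D + 1) + d * (D + 3)) +
        (a + lam) * (K + η - etaC M q Z v₀ v₁ v₂ t s tr ρ c + D + 1) + B +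
        d * (2 * G + 2 * D + 6) := by
  have hq := h.hq
  have a1 := derived hA ha hl (M := M) (q := q) (Z := Z)
    (T := fun w => (t w, s w, tr w, cC s tr ρ c w))
    (Y := fun w => xf M (u₂ w) (v₂ w) (tr w) (cC s tr ρ c w) (v₁ w))
    (W := fun w => (v₀ w, v₁ w, v₂ w)) (v := v₂) (u := u₂) (τ := ρ)
    { hM := h.hM
      hp := h.hq
      h1 := h.h1
      hv := h.hv₂
      hu := by
        intro w w' hw hw' e
        refine h.hu₂ w w' hw hw' ?_
        simp only [Prod.mk.injEq] at e ⊢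
        tauto
      hτ := h.hρ }
    (by
      intro w w' _ _ e
      simp only [Prod.mk.injEq] at e
      tauto)
    (by
      intro w w' hw hw' e
      simp only [Prod.mk.injEq] at e
      obtain ⟨⟨e0, e1, e2⟩, e3, e4, e5, e6, e7⟩ := e
      have e8 : u₂ w = u₂ w' := h.hu₂ w w' hw hw' (by simp only [Prod.mk.injEq]; exact ⟨e2, e3⟩)
      simp only
      rw [e8, e2, e6, e7, e1])
  have a2 := mul_le_mul_of_nonneg_left h.slice_le ha
  have a3 := mul_le_mul_of_nonneg_left h.rho_ge (add_nonneg ha hl)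
  have a4 := h.rest_le
  unfold hC yC
  linarith

theorem CCfg.II (h : CCfg M q Z v₀ v₁ v₂ u₀ u₁ u₂ t s tr ρ c L S K G D η x) :
    mC M q Z v₀ v₂ u₀ u₂ t s tr + L - 2 * S - K - kapC M q Z t s tr ρ c -
        etaC M q Z v₀ v₁ v₂ t s tr ρ c - d * (G + 2 * D + 4) ≤
      yC M q Z v₁ v₂ u₂ t s tr ρ c := by
  have hq := h.hq
  unfold mC kapC etaC yC
  -- `v₁` given `P`, `V`, `c₂`
  have a1 := CH_le_add hq v₁ (fun w => xf M (u₂ w) (v₂ w) (tr w) (cC s tr ρ c w) (v₁ w))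
    (fun w => (cC s tr ρ c w, (rd (pos M (u₂ w) (v₂ w) (tr w)), (Z w, t w, s w, tr w))))
  have a2 : CH q (fun w => xf M (u₂ w) (v₂ w) (tr w) (cC s tr ρ c w) (v₁ w))
      (fun w => (cC s tr ρ c w, (rd (pos M (u₂ w) (v₂ w) (tr w)), (Z w, t w, s w, tr w)))) ≤
      CH q (fun w => xf M (u₂ w) (v₂ w) (tr w) (cC s tr ρ c w) (v₁ w))
        (fun w => (Z w, (t w, s w, tr w, cC s tr ρ c w))) := by
    refine CH_mono_cond hq ?_
    intro w w' _ _ e
    simp only [Prod.mk.injEq] at e ⊢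
    tauto
  have a3 := h.v1_le (fun w => (xf M (u₂ w) (v₂ w) (tr w) (cC s tr ρ c w) (v₁ w),
      (cC s tr ρ c w, (rd (pos M (u₂ w) (v₂ w) (tr w)), (Z w, t w, s w, tr w))))) (by
    intro w w' hw hw' e
    simp only [Prod.mk.injEq] at e
    obtain ⟨e1, e2, e3, e4, e5, e6, e7⟩ := e
    refine ⟨e2, fun k => ?_⟩
    have i1 := rd_eq_abs (congrFun e1 k)
    have i2 := rd_eq_abs (congrFun e3 k)
    rw [← e7, ← e2] at i1
    rw [← e7] at i2
    have i3 : (cC s tr ρ c w : ℝ) / M * ((v₁ w k : ℝ) - v₁ w' k) =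
      ((pos M (u₂ w) (v₂ w) (tr w) k + (cC s tr ρ c w : ℝ) / M * v₁ w k) -
      (pos M (u₂ w') (v₂ w') (tr w) k + (cC s tr ρ c w : ℝ) / M * v₁ w' k)) -
      (pos M (u₂ w) (v₂ w) (tr w) k - pos M (u₂ w') (v₂ w') (tr w) k) := by ring
    rw [i3]
    rw [abs_le] at i1 i2 ⊢
    constructor <;> linarith [i1.1, i1.2, i2.1, i2.2])
  -- removing `c₂` from the conditioning
  have b1 := CH_chain hq v₁ (cC s tr ρ c)
    (fun w => (rd (pos M (u₂ w) (v₂ w) (tr w)), (Z w, t w, s w, tr w)))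
  have b2 := CH_chain hq (cC s tr ρ c) v₁
    (fun w => (rd (pos M (u₂ w) (v₂ w) (tr w)), (Z w, t w, s w, tr w)))
  have b3 : CH q (fun w => (v₁ w, cC s tr ρ c w))
        (fun w => (rd (pos M (u₂ w) (v₂ w) (tr w)), (Z w, t w, s w, tr w))) =
      CH q (fun w => (cC s tr ρ c w, v₁ w))
        (fun w => (rd (pos M (u₂ w) (v₂ w) (tr w)), (Z w, t w, s w, tr w))) := by
    refine CH_congr hq ?_ ?_ ?_ ?_ <;>
    · intro w w' _ _ e
      simp only [Prod.mk.injEq] at e ⊢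
      tauto
  have b4 : CH q (cC s tr ρ c)
        (fun w => (rd (pos M (u₂ w) (v₂ w) (tr w)), (Z w, t w, s w, tr w))) ≤
      CH q (cC s tr ρ c) (fun w => (Z w, t w, s w, tr w)) := by
    refine CH_mono_cond hq ?_
    intro w w' _ _ e
    simp only [Prod.mk.injEq] at e ⊢
    tauto
  have b5 : CH q (cC s tr ρ c) (fun w => ((v₀ w, v₁ w, v₂ w), Z w, t w, s w, tr w)) ≤
      CH q (cC s tr ρ c)
        (fun w => (v₁ w, (rd (pos M (u₂ w) (v₂ w) (tr w)), (Z w, t w, s w, tr w)))) := by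
    refine CH_mono_cond hq ?_
    intro w w' hw hw' e
    simp only [Prod.mk.injEq] at e
    obtain ⟨⟨e0, e1, e2⟩, e3, e4, e5, e6⟩ := e
    have e8 : u₂ w = u₂ w' := h.hu₂ w w' hw hw' (by simp only [Prod.mk.injEq]; exact ⟨e2, e3⟩)
    simp only [Prod.mk.injEq]
    exact ⟨e1, by rw [e8, e2, e6], e3, e4, e5, e6⟩
  -- `v₁` given `P`, `V`
  have c1 := CH_chain hq v₁ (fun w => rd (pos M (u₀ w) (v₀ w) (t w)))
    (fun w => (rd (pos M (u₂ w) (v₂ w) (tr w)), (Z w, t w, s w, tr w)))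
  have c2 : CH q (fun w => (v₁ w, rd (pos M (u₀ w) (v₀ w) (t w))))
        (fun w => (rd (pos M (u₂ w) (v₂ w) (tr w)), (Z w, t w, s w, tr w))) =
      CH q v₁ (fun w => (rd (pos M (u₂ w) (v₂ w) (tr w)), (Z w, t w, s w, tr w))) := by
    refine CH_congr hq ?_ ?_ (fun _ _ _ _ h => h) (fun _ _ _ _ h => h)
    · intro w w' _ _ e
      simp only [Prod.mk.injEq] at e ⊢
      tauto
    · intro w w' hw hw' e
      simp only [Prod.mk.injEq] at e ⊢
      obtain ⟨e1, e2, e3, e4, e5, e6⟩ := e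
      have e8 : u₁ w = u₁ w' := h.hu₁ w w' hw hw' (by simp only [Prod.mk.injEq]; exact ⟨e1, e3⟩)
      refine ⟨e1, ?_⟩
      rw [h.cross01 w hw, h.cross01 w' hw', e8, e1, e4]
  have c3 : CH q v₁ (fun w => (rd (pos M (u₀ w) (v₀ w) (t w)),
        (rd (pos M (u₂ w) (v₂ w) (tr w)), (Z w, t w, s w, tr w)))) =
      CH q v₁ (fun w => ((rd (pos M (u₀ w) (v₀ w) (t w)),
        rd (pos M (u₂ w) (v₂ w) (tr w))), Z w, t w, s w, tr w)) := by
    refine CH_congr hq ?_ ?_ ?_ ?_ <;>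
    · intro w w' _ _ e
      simp only [Prod.mk.injEq] at e ⊢
      tauto
  have c4 := CH_chain hq (fun w => rd (pos M (u₀ w) (v₀ w) (t w)))
    (fun w => rd (pos M (u₂ w) (v₂ w) (tr w))) (fun w => (Z w, t w, s w, tr w))
  have c5 : CH q (fun w => rd (pos M (u₂ w) (v₂ w) (tr w))) (fun w => (Z w, t w, s w, tr w)) ≤
      CH q (fun w => rd (pos M (u₂ w) (v₂ w) (tr w))) (fun w => (Z w, tr w)) := by
    refine CH_mono_cond hq ?_
    intro w w' _ _ e
    simp only [Prod.mk.injEq] at e ⊢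
    tauto
  have c6 := h.Str
  have c7 := h.cv₁
  linarith

end Cfg

end Pool.Agent.H32.Dense
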